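import Mathlib
import Pool.Agent.helper71.NilCore

/-!
# Dense orbits along `R_e`-sequences in minimal nilsystems

For every `R_e`-sequence `A` and every minimal nilsystem `(G ⧸ Γ, x ↦ a • x)` there is a point whose
orbit along `A` is dense (a positive answer to Q1 of MP_33f427_an).

The proof (in `Pool.Agent.helper71.NilCore`) uses only that a Lie group is a locally compact, locally
connected and locally second countable topological group. It does not use the theorem of Host, Kra
and Maass.
-/

namespace Pool.Agent.Results.MP_33f427_an.ReNilsystem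

/-- The orbit `{T ^ n x : n ∈ A}` of `x` along `A`. -/
def orbitAlong {X : Type*} (T : X → X) (A : Set ℕ) (x : X) : Set X :=
  {y | ∃ n ∈ A, T^[n] x = y}

/-- `T` is minimal: `{T ^ n x : n = 1, 2, 3, …}` is dense for every `x`. -/
def IsMinimalMap {X : Type*} [TopologicalSpace X] (T : X → X) : Prop :=
  ∀ x : X, Dense (orbitAlong T {n | 1 ≤ n} x)

/-- `A` is an `R_e`-sequence: every minimal equicontinuous system `(X, T)` (a nonempty compact metric
space `X` with a continuous surjection `T` which is minimal and for which the family `T ^ n`, `n ≥ 0`,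
is equicontinuous) contains a point whose orbit along `A` is dense. -/
def IsReSequence (A : Set ℕ) : Prop :=
  ∀ (X : Type) [MetricSpace X] [CompactSpace X] [Nonempty X] (T : X → X),
    Continuous T → Function.Surjective T → IsMinimalMap T →
      Equicontinuous (fun n : ℕ => T^[n]) → ∃ x : X, Dense (orbitAlong T A x)

/-- Sanity check: the set of all positive integers is an `R_e`-sequence. -/
theorem isReSequence_pos : IsReSequence {n | 1 ≤ n} := by
  intro X _ _ hX T _ _ hmin _
  exact ⟨Classical.choice hX, hmin _⟩

open scoped Manifold ContDiff in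
/-- **Main result.** Let `A` be an `R_e`-sequence, `G` a nilpotent (real, finite-dimensional,
Hausdorff, smooth) Lie group, `Γ` a discrete cocompact subgroup, `a ∈ G`, and suppose that the
nilsystem `(G ⧸ Γ, S)` with `S (g Γ) = a g Γ` is minimal. Then there is a point `y` whose orbit
`{S ^ n y : n ∈ A}` along `A` is dense. -/
theorem result (A : Set ℕ) (hA : IsReSequence A)
    (E : Type) [NormedAddCommGroup E] [NormedSpace ℝ E] [FiniteDimensional ℝ E]
    (G : Type) [TopologicalSpace G] [T2Space G] [ChartedSpace E G] [Group G]
    [LieGroup 𝓘(ℝ, E) ∞ G] [Group.IsNilpotent G]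
    (Γ : Subgroup G) [DiscreteTopology Γ] [CompactSpace (G ⧸ Γ)] (a : G)
    (hmin : IsMinimalMap (fun x : G ⧸ Γ => a • x)) :
    ∃ y : G ⧸ Γ, Dense (orbitAlong (fun x : G ⧸ Γ => a • x) A y) := by
  have htg : IsTopologicalGroup G := topologicalGroup_of_lieGroup 𝓘(ℝ, E) ∞
  have hlc : LocallyCompactSpace G := Manifold.locallyCompact_of_finiteDimensional 𝓘(ℝ, E)
  have hlcon : LocallyConnectedSpace G := ChartedSpace.locallyConnectedSpace E G
  have hsc : SecondCountableTopology (chartAt E (1 : G)).source :=
    (chartAt E (1 : G)).secondCountableTopology_source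
  exact Pool.Agent.helper71.NilCore.main_top Γ Subgroup.isClosed_of_discrete a hmin
    (chartAt E (1 : G)).open_source (mem_chart_source E (1 : G)) hA

end Pool.Agent.Results.MP_33f427_an.ReNilsystem
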